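import Mathlib
import Pool.Agent.H35.UP.Final

/-!
# Long compositions of polynomials: hyperbolicity is asymptotically dense

For all large `n`, uniformly in the `n`-tuple, every `n`-tuple of polynomials of bounded degree has
small rare changes of the constant terms which make the composition hyperbolic.
-/

set_option autoImplicit false

namespace Pool.Agent.H35.Old.PolynomialWords

open Polynomial

/-- The rational map `P/Q` of the Riemann sphere is hyperbolic, in the words of the frozen
statement `S05373`: the continuous extension `f` of `P/Q` to the sphere has every critical point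
(point where `f` is not locally injective) attracted to an attracting periodic cycle. -/
def IsHyperbolic (P Q : Polynomial ℂ) : Prop :=
  ∃ f : OnePoint ℂ → OnePoint ℂ, Continuous f ∧
    (∀ z : ℂ, Q.eval z ≠ 0 → f (OnePoint.some z) = OnePoint.some (P.eval z / Q.eval z)) ∧
    ∀ c : OnePoint ℂ, (¬ ∃ U ∈ nhds c, Set.InjOn f U) →
      ∃ z : OnePoint ℂ, ∃ n : ℕ, 0 < n ∧ f^[n] z = z ∧
        (∃ U ∈ nhds z, ∀ w ∈ U,
          Filter.Tendsto (fun k : ℕ => f^[n * k] w) Filter.atTop (nhds z)) ∧
        Filter.Tendsto (fun k : ℕ => f^[n * k] c) Filter.atTop (nhds z)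

/-- `compose P n = P (n-1) ∘ ... ∘ P 1 ∘ P 0` -/
noncomputable def compose (P : ℕ → Polynomial ℂ) : ℕ → Polynomial ℂ
  | 0 => X
  | n + 1 => (P n).comp (compose P n)

/-- Let `d ≥ 2`, `B ≥ 1`, `ε > 0`, `M ≥ 1`.  There is `N` such that for all `n ≥ N` and all
polynomials `P 0, ..., P (n-1)` of degrees between `2` and `d`, with coefficients of modulus at
most `B` and leading coefficients of modulus at least `1 / B`, there are complex numbers `a j` of
modulus less than `ε`, at most `n / M` of them different from `0`, such that the composition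
`(P (n-1) + a (n-1)) ∘ ... ∘ (P 0 + a 0)` is hyperbolic. -/
theorem result (d : ℕ) (B : ℝ) (hB : 1 ≤ B) (ε : ℝ) (hε : 0 < ε) (M : ℕ) (hM : 1 ≤ M) :
    ∃ N : ℕ, ∀ n ≥ N, ∀ P : ℕ → Polynomial ℂ,
      (∀ j < n, 2 ≤ (P j).natDegree ∧ (P j).natDegree ≤ d ∧ (∀ i, ‖(P j).coeff i‖ ≤ B) ∧
        1 / B ≤ ‖(P j).leadingCoeff‖) →
      ∃ a : ℕ → ℂ, (∀ j, ‖a j‖ < ε) ∧ M * {j : ℕ | j < n ∧ a j ≠ 0}.ncard ≤ n ∧
        IsHyperbolic (compose (fun j => P j + C (a j)) n) 1 := by
  obtain ⟨N, hN⟩ := Pool.Agent.H35.UP.main d B hB ε hε M hM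
  refine ⟨N + 1, fun n hn P hP => ?_⟩
  obtain ⟨a, h1, h2, f, hf1, hf2, hf3⟩ := hN n (by omega) (fun j => if j < n then P j else P 0)
    (fun j => by
      by_cases hj : j < n
      · rw [if_pos hj]; exact hP j hj
      · rw [if_neg hj]; exact hP 0 (by omega))
  have hcomp : ∀ k ≤ n, Pool.Agent.H35.UP.compose (fun j => if j < n then P j else P 0) a k =
      compose (fun j => P j + C (a j)) k := by
    intro k
    induction k with
    | zero => intro _; rfl
    | succ k ih =>
      intro hk
      simp only [compose, Pool.Agent.H35.UP.compose]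
      rw [ih (by omega), if_pos (by omega)]
  refine ⟨a, h1, h2, f, hf1, ?_, hf3⟩
  intro z _
  rw [hf2 z, hcomp n le_rfl, eval_one, div_one]

end Pool.Agent.H35.Old.PolynomialWords
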