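import Mathlib
import Pool.Agent.H35.ME.Vol

/-!
# Long compositions of polynomials are hyperbolic for most constant terms

In a composition of `n` polynomials from a compact set add a number `a i`, `‖a i‖ < ε`, to every
`M`-th constant term.  The set of those `a` for which the composition is not hyperbolic has
exponentially small relative measure, uniformly in the polynomials.
-/

set_option autoImplicit false

namespace Pool.Agent.Results.MP_8f2e1c_an.RandomConstantTerms

open Polynomial

/-- The rational map `P/Q` of the Riemann sphere is hyperbolic, in the words of the frozen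
statement `S05373`: the continuous extension `f` of `P/Q` to the sphere has every critical point
(point where `f` is not locally injective) attracted to an attracting periodic cycle. -/
def IsHyperbolic (P Q : Polynomial ℂ) : Prop :=
  ∃ f : OnePoint ℂ → OnePoint ℂ, Continuous f ∧
    (∀ z : ℂ, Q.eval z ≠ 0 → f (OnePoint.some z) = OnePoint.some (P.eval z / Q.eval z)) ∧
    ∀ c : OnePoint ℂ, (¬ ∃ U ∈ nhds c, Set.InjOn f U) →
      ∃ z : OnePoint ℂ, ∃ n : ℕ, 0 < n ∧ f^[n] z = z ∧
        (∃ U ∈ nhds z, ∀ w ∈ U,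
          Filter.Tendsto (fun k : ℕ => f^[n * k] w) Filter.atTop (nhds z)) ∧
        Filter.Tendsto (fun k : ℕ => f^[n * k] c) Filter.atTop (nhds z)

/-- `compose P n = P (n-1) ∘ ... ∘ P 1 ∘ P 0` -/
noncomputable def compose (P : ℕ → Polynomial ℂ) : ℕ → Polynomial ℂ
  | 0 => X
  | n + 1 => (P n).comp (compose P n)

/-- the change of the constant term of the `j`-th polynomial: it is `a i` if `j = i M + (M - 1)`
with `i < k`, and `0` for all other `j` -/
def change {k : ℕ} (M : ℕ) (a : Fin k → ℂ) (j : ℕ) : ℂ :=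
  if h : M ∣ j + 1 ∧ j / M < k then a ⟨j / M, h.2⟩ else 0

/-- Let `d ≥ 2`, `B ≥ 1`, `ε > 0`, `M ≥ 1`.  There are `K` and `θ < 1` such that for all `n` and all
polynomials `P 0, ..., P (n-1)` of degrees between `2` and `d`, with coefficients of modulus at
most `B` and leading coefficients of modulus at least `1 / B`: among the vectors `a` of `n / M`
complex numbers of modulus less than `ε` those for which the composition of the polynomials
`P j + change M a j`, `j < n`, is not hyperbolic form a set whose Lebesgue measure is at most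
`K θ ^ (n / M)` times the measure of the set of all these vectors. -/
theorem result (d : ℕ) (B : ℝ) (hB : 1 ≤ B) (ε : ℝ) (hε : 0 < ε) (M : ℕ) (hM : 1 ≤ M) :
    ∃ K θ : ℝ, 0 < θ ∧ θ < 1 ∧ ∀ (n : ℕ) (P : ℕ → Polynomial ℂ),
      (∀ j < n, 2 ≤ (P j).natDegree ∧ (P j).natDegree ≤ d ∧ (∀ i, ‖(P j).coeff i‖ ≤ B) ∧
        1 / B ≤ ‖(P j).leadingCoeff‖) →
      MeasureTheory.volume {a : Fin (n / M) → ℂ | (∀ i, ‖a i‖ < ε) ∧
          ¬ IsHyperbolic (compose (fun j => P j + C (change M a j)) n) 1} ≤
        ENNReal.ofReal (K * θ ^ (n / M)) *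
          MeasureTheory.volume {a : Fin (n / M) → ℂ | ∀ i, ‖a i‖ < ε} := by
  obtain ⟨K, θ, hθ0, hθ1, h⟩ := Pool.Agent.H35.ME.main_vol d B hB ε hε M hM
  refine ⟨max K 1, θ, hθ0, hθ1, fun n P hP => ?_⟩
  rcases Nat.eq_zero_or_pos n with hn | hn
  · subst hn
    have h1 : ENNReal.ofReal (max K 1 * θ ^ (0 / M)) ≥ 1 := by
      rw [Nat.zero_div, pow_zero, mul_one, ge_iff_le, ← ENNReal.ofReal_one]
      exact ENNReal.ofReal_le_ofReal (le_max_right _ _)
    calc MeasureTheory.volume {a : Fin (0 / M) → ℂ | (∀ i, ‖a i‖ < ε) ∧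
          ¬ IsHyperbolic (compose (fun j => P j + C (change M a j)) 0) 1}
        ≤ 1 * MeasureTheory.volume {a : Fin (0 / M) → ℂ | ∀ i, ‖a i‖ < ε} := by
          rw [one_mul]
          exact MeasureTheory.measure_mono (fun a ha => ha.1)
      _ ≤ _ := by gcongr
  have h1 := h n (fun j => if j < n then P j else P 0) (fun j => by
    by_cases hj : j < n
    · rw [if_pos hj]; exact hP j hj
    · rw [if_neg hj]; exact hP 0 hn)
  have hcomp : ∀ (a : Fin (n / M) → ℂ), ∀ k ≤ n,
      Pool.Agent.H35.ME.cpo (fun j => if j < n then P j else P 0)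
        (Pool.Agent.H35.ME.kk M a) k = compose (fun j => P j + C (change M a j)) k := by
    intro a k
    induction k with
    | zero => intro _; rfl
    | succ k ih =>
      intro hk
      simp only [compose, Pool.Agent.H35.ME.cpo]
      rw [ih (by omega), if_pos (by omega)]
      rfl
  refine le_trans (MeasureTheory.measure_mono ?_) (h1.trans ?_)
  · rintro a ⟨ha1, ha2⟩
    refine ⟨ha1, ?_⟩
    rintro ⟨f, hf1, hf2, hf3⟩
    apply ha2
    refine ⟨f, hf1, fun z _ => ?_, hf3⟩
    rw [hf2 z, hcomp a n le_rfl, eval_one, div_one]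
  · gcongr
    exact le_max_left _ _

end Pool.Agent.Results.MP_8f2e1c_an.RandomConstantTerms
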