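import Mathlib
import Pool.Agent.H35.NA.Final

/-!
# Compositions of a rational map with small, rare rotations are hyperbolic
-/

set_option autoImplicit false

namespace Pool.Agent.Results.MP_8f2e1c_an.RareRotations

open Polynomial
open scoped ComplexConjugate

/-- `f` is the self-map of the Riemann sphere given by the rational function `P/Q`. -/
def Represents (P Q : Polynomial ℂ) (f : OnePoint ℂ → OnePoint ℂ) : Prop :=
  Continuous f ∧ ∀ z : ℂ, Q.eval z ≠ 0 → f (OnePoint.some z) = OnePoint.some (P.eval z / Q.eval z)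

/-- The numerator of `R ∘ (P/Q)`, where `R` is the rotation `z ↦ (a z - b̄) / (b z + ā)`. -/
noncomputable def rotNum (a b : ℂ) (P Q : Polynomial ℂ) : Polynomial ℂ :=
  C a * P - C (conj b) * Q

/-- The denominator of `R ∘ (P/Q)`, where `R` is the rotation `z ↦ (a z - b̄) / (b z + ā)`. -/
noncomputable def rotDen (a b : ℂ) (P Q : Polynomial ℂ) : Polynomial ℂ :=
  C b * P + C (conj a) * Q

/-- `f` is hyperbolic, in the words of the frozen statement `S05373`: every critical point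
(point where `f` is not locally injective) is attracted to an attracting periodic cycle. -/
def Hyperbolic (f : OnePoint ℂ → OnePoint ℂ) : Prop :=
  ∀ c : OnePoint ℂ, (¬ ∃ U ∈ nhds c, Set.InjOn f U) →
    ∃ z : OnePoint ℂ, ∃ n : ℕ, 0 < n ∧ f^[n] z = z ∧
      (∃ U ∈ nhds z, ∀ w ∈ U,
        Filter.Tendsto (fun k : ℕ => f^[n * k] w) Filter.atTop (nhds z)) ∧
      Filter.Tendsto (fun k : ℕ => f^[n * k] c) Filter.atTop (nhds z)

/-- `compose f n = f (n-1) ∘ ... ∘ f 1 ∘ f 0` -/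
def compose (f : ℕ → OnePoint ℂ → OnePoint ℂ) : ℕ → OnePoint ℂ → OnePoint ℂ
  | 0 => id
  | n + 1 => f n ∘ compose f n

/-- Let `g = P/Q` be any rational map of degree `d ≥ 2`, `ε > 0` and `M ≥ 1`.  For all large `n` there
are rotations `R 0, ..., R (n-1)` of the sphere, `ε`-close to the identity and at most `n/M` of them
different from the identity, such that `R (n-1) ∘ g ∘ ... ∘ R 1 ∘ g ∘ R 0 ∘ g` is hyperbolic. -/
theorem result (d : ℕ) (hd : 2 ≤ d) (P Q : Polynomial ℂ) (hcop : IsCoprime P Q)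
    (hdeg : max P.natDegree Q.natDegree = d) (ε : ℝ) (hε : 0 < ε) (M : ℕ) (hM : 1 ≤ M) :
    ∃ n₀ : ℕ, ∀ n ≥ n₀, ∃ (a b : ℕ → ℂ) (f : ℕ → OnePoint ℂ → OnePoint ℂ),
      (∀ j, ‖a j‖ ^ 2 + ‖b j‖ ^ 2 = 1 ∧ ‖a j - 1‖ < ε ∧ ‖b j‖ < ε) ∧
      M * {j : ℕ | j < n ∧ ¬ (a j = 1 ∧ b j = 0)}.ncard ≤ n ∧
      (∀ j, IsCoprime (rotNum (a j) (b j) P Q) (rotDen (a j) (b j) P Q) ∧
        max (rotNum (a j) (b j) P Q).natDegree (rotDen (a j) (b j) P Q).natDegree = d ∧
        (∀ i, ‖(rotNum (a j) (b j) P Q).coeff i - P.coeff i‖ < ε ∧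
          ‖(rotDen (a j) (b j) P Q).coeff i - Q.coeff i‖ < ε) ∧
        Represents (rotNum (a j) (b j) P Q) (rotDen (a j) (b j) P Q) (f j)) ∧
      Hyperbolic (compose f n) := by
  obtain ⟨n₀, h⟩ := Pool.Agent.H35.NA.main hcop hd hdeg hε hM
  refine ⟨n₀, fun n hn => ?_⟩
  obtain ⟨a, b, f, h1, h2, h3, h4⟩ := h n hn
  refine ⟨a, b, f, h1, ?_, h3, ?_⟩
  · have hfin : {j : ℕ | j < n ∧ ¬ (a j = 1 ∧ b j = 0)}.Finite :=
      (Set.finite_lt_nat n).subset (fun j hj => hj.1)
    rw [Set.ncard_eq_toFinset_card _ hfin]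
    exact h2 _ (fun j hj => (Set.Finite.mem_toFinset hfin).1 hj)
  · have hcomp : ∀ k, compose f k = Pool.Agent.H35.NA.compN f k := by
      intro k
      induction k with
      | zero => rfl
      | succ k ih => simp only [compose, Pool.Agent.H35.NA.compN, ih]
    rw [hcomp]
    exact h4

end Pool.Agent.Results.MP_8f2e1c_an.RareRotations
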